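import Mathlib

/-!
Project PV (helper922), part PT2 (helper951): squares in a cubic order over `ℤ_2`.
-/

set_option autoImplicit false
set_option linter.all false

open Polynomial

namespace Pool.Agent.N951.PV

section fix

theorem smod_iff (x y : ℤ_[2]) (n : ℕ) :
    x ≡ y [SMOD (IsLocalRing.maximalIdeal ℤ_[2] ^ n • ⊤ : Submodule ℤ_[2] ℤ_[2])] ↔
      (2 : ℤ_[2]) ^ n ∣ x - y := by
  rw [SModEq.sub_mem, smul_eq_mul, Ideal.mul_top, PadicInt.maximalIdeal_eq_span_p,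
    Ideal.span_singleton_pow, Ideal.mem_span_singleton]
  norm_num

theorem lim (x : ℕ → ℤ_[2]) (h : ∀ n, (2 : ℤ_[2]) ^ n ∣ x (n + 1) - x n) :
    ∃ L, ∀ n, (2 : ℤ_[2]) ^ n ∣ L - x n := by
  have h1 : ∀ m n, m ≤ n → (2 : ℤ_[2]) ^ m ∣ x n - x m := by
    intro m n hmn
    induction n, hmn using Nat.le_induction with
    | base => simp
    | succ n hmn ih =>
      have := dvd_add ((pow_dvd_pow 2 hmn).trans (h n)) ih
      rwa [sub_add_sub_cancel] at this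
  obtain ⟨L, hL⟩ := IsPrecomplete.prec
    (inferInstance : IsPrecomplete (IsLocalRing.maximalIdeal ℤ_[2]) ℤ_[2]) (f := x) (by
      intro m n hmn
      rw [smod_iff, ← dvd_neg, neg_sub]
      exact h1 m n hmn)
  refine ⟨L, fun n => ?_⟩
  have := hL n
  rw [smod_iff, ← dvd_neg, neg_sub] at this
  exact this

theorem zero_of (x : ℤ_[2]) (h : ∀ n, (2 : ℤ_[2]) ^ n ∣ x) : x = 0 := by
  refine IsHausdorff.haus
    (inferInstance : IsHausdorff (IsLocalRing.maximalIdeal ℤ_[2]) ℤ_[2]) x (fun n => ?_)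
  rw [smod_iff, sub_zero]
  exact h n

theorem fixp (P : (Fin 3 → ℤ_[2]) → Fin 3 → ℤ_[2])
    (hP : ∀ (d : ℤ_[2]) (x y : Fin 3 → ℤ_[2]), (∀ i, d ∣ x i - y i) → ∀ i, d ∣ P x i - P y i)
    (u : Fin 3 → ℤ_[2]) : ∃ y : Fin 3 → ℤ_[2], ∀ i, y i = u i - 2 * P y i := by
  let y : ℕ → Fin 3 → ℤ_[2] := fun n => Nat.rec 0 (fun _ z i => u i - 2 * P z i) n
  have hs : ∀ n i, y (n + 1) i = u i - 2 * P (y n) i := fun n i => rfl
  have h1 : ∀ n i, (2 : ℤ_[2]) ^ n ∣ y (n + 1) i - y n i := by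
    intro n
    induction n with
    | zero => intro i; simp
    | succ n ih =>
      intro i
      have e : y (n + 1 + 1) i - y (n + 1) i = -(2 * (P (y (n + 1)) i - P (y n) i)) := by
        rw [hs (n + 1), hs n]
        ring
      rw [e, dvd_neg, pow_succ, mul_comm]
      exact mul_dvd_mul_left 2 (hP _ _ _ ih i)
  choose L hL using fun i => lim (fun n => y n i) (fun n => h1 n i)
  refine ⟨L, fun i => sub_eq_zero.1 (zero_of _ fun n => ?_)⟩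
  have e : L i - (u i - 2 * P L i) = (L i - y (n + 1) i) + 2 * (P L i - P (y n) i) := by
    rw [hs n]
    ring
  rw [e]
  exact dvd_add ((pow_dvd_pow 2 (Nat.le_succ n)).trans (hL i (n + 1)))
    (Dvd.dvd.mul_left (hP _ _ _ (fun i => hL i n) i) 2)

end fix

/-- Squares are congruent to the number itself. -/
theorem sq_two (x : ℤ_[2]) : ∃ y : ℤ_[2], x ^ 2 = x + 2 * y := by
  have h1 : PadicInt.toZMod (x ^ 2 - x) = 0 := by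
    rw [map_sub, map_pow]
    generalize (PadicInt.toZMod x : ZMod 2) = z
    revert z
    decide
  have h2 : x ^ 2 - x ∈ RingHom.ker (PadicInt.toZMod (p := 2)) := h1
  rw [PadicInt.ker_toZMod, PadicInt.maximalIdeal_eq_span_p, Ideal.mem_span_singleton] at h2
  obtain ⟨y, hy⟩ := h2
  refine ⟨y, ?_⟩
  have e : ((2 : ℕ) : ℤ_[2]) = 2 := by norm_num
  rw [e] at hy
  linear_combination hy

section ring

variable {R : Type} [CommRing R] (ι : ℤ_[2] →+* R) (θ : R) {a b : ℤ}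

/-- The element with given coordinates. -/
noncomputable def ev (p : Fin 3 → ℤ_[2]) : R := ι (p 0) + ι (p 1) * θ + ι (p 2) * θ ^ 2

/-- The coordinates of the product. -/
noncomputable def mu (a b : ℤ) (p q : Fin 3 → ℤ_[2]) : Fin 3 → ℤ_[2] :=
  ![p 0 * q 0 - b * (p 1 * q 2 + p 2 * q 1),
    p 0 * q 1 + p 1 * q 0 - a * (p 1 * q 2 + p 2 * q 1) - b * (p 2 * q 2),
    p 0 * q 2 + p 2 * q 0 + p 1 * q 1 - a * (p 2 * q 2)]

theorem ev_mu (hθ : θ ^ 3 + (a : R) * θ + (b : R) = 0) (p q : Fin 3 → ℤ_[2]) :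
    ev ι θ (mu a b p q) = ev ι θ p * ev ι θ q := by
  simp only [ev, mu, Matrix.cons_val_zero, Matrix.cons_val_one, Matrix.cons_val, map_sub, map_add,
    map_mul, map_intCast]
  linear_combination (-(ι (p 1) * ι (q 2) + ι (p 2) * ι (q 1)) - ι (p 2) * ι (q 2) * θ) * hθ

theorem mu_dvd (d : ℤ_[2]) (x x' y y' : Fin 3 → ℤ_[2]) (hx : ∀ i, d ∣ x i - x' i)
    (hy : ∀ i, d ∣ y i - y' i) : ∀ i, d ∣ mu a b x y i - mu a b x' y' i := by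
  simp only [← Ideal.mem_span_singleton, ← Ideal.Quotient.eq] at *
  intro i
  fin_cases i <;> simp [mu, hx 0, hx 1, hx 2, hy 0, hy 1, hy 2]

theorem ev_add (p q : Fin 3 → ℤ_[2]) : ev ι θ (p + q) = ev ι θ p + ev ι θ q := by
  simp only [ev, Pi.add_apply, map_add]
  ring

theorem newt [IsDomain R] (hθ : θ ^ 3 + (a : R) * θ + (b : R) = 0)
    (gen : ∀ x : R, ∃ p, x = ev ι θ p) {g0 v e u : R} (hv : v ≠ 0) (h : g0 * v = 1 + 2 * e) :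
    ∃ g : R, g ^ 2 = g0 ^ 2 + 8 * u := by
  obtain ⟨v', rfl⟩ := gen v
  obtain ⟨e', rfl⟩ := gen e
  obtain ⟨u', hu⟩ := gen (ev ι θ v' * u)
  obtain ⟨y, hy⟩ := fixp (fun y i => mu a b v' (mu a b y y) i + mu a b e' y i) (by
    intro d x y h i
    have h1 := mu_dvd (a := a) (b := b) d v' v' (mu a b x x) (mu a b y y) (fun _ => by simp)
      (mu_dvd d x y x y h h) i
    have h2 := mu_dvd (a := a) (b := b) d e' e' x y (fun _ => by simp) h i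
    have h3 := dvd_add h1 h2
    have e3 : (mu a b v' (mu a b x x) i + mu a b e' x i) - (mu a b v' (mu a b y y) i + mu a b e' y i) =
      mu a b v' (mu a b x x) i - mu a b v' (mu a b y y) i + (mu a b e' x i - mu a b e' y i) := by ring
    rw [e3]
    exact h3) u'
  have hy2 : ev ι θ y = ev ι θ v' * u -
      2 * (ev ι θ v' * (ev ι θ y * ev ι θ y) + ev ι θ e' * ev ι θ y) := by
    rw [hu, ← ev_mu ι θ hθ y y, ← ev_mu ι θ hθ, ← ev_mu ι θ hθ, ← ev_add]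
    have e1 : ∀ i, ι (y i) = ι (u' i) - 2 * ι ((mu a b v' (mu a b y y) + mu a b e' y) i) := by
      intro i
      have := congrArg ι (hy i)
      rw [map_sub, map_mul, map_ofNat] at this
      exact this
    generalize mu a b v' (mu a b y y) + mu a b e' y = z at e1
    simp only [ev, e1]
    ring
  have h3 : g0 * ev ι θ y = u - 2 * ev ι θ y ^ 2 :=
    mul_left_cancel₀ hv (by linear_combination ev ι θ y * h + hy2)
  exact ⟨g0 + 4 * ev ι θ y, by linear_combination 8 * h3⟩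

/-- `1 + 4 (2 r + s θ + t θ ^ 2)` is a square modulo `8`. -/
theorem sq4 {a' b' : ℤ} (ha : a = 2 * a' + 1) (hb : b = 2 * b' + 1)
    (hθ : θ ^ 3 + (a : R) * θ + (b : R) = 0) (r s t : ℤ_[2]) :
    ∃ w u : R, 1 + 4 * (2 * ι r + ι s * θ + ι t * θ ^ 2) = (1 + 2 * w) ^ 2 + 8 * u := by
  obtain ⟨p, hp⟩ := sq_two t
  obtain ⟨q, hq⟩ := sq_two (s + t)
  have hp' := congrArg ι hp
  have hq' := congrArg ι hq
  simp only [map_pow, map_add, map_mul, map_ofNat] at hp' hq'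
  subst ha hb
  push_cast at hθ
  generalize ι r = r at *
  generalize ι s = s at *
  generalize ι t = t at *
  generalize ι p = p at *
  generalize ι q = q at *
  refine ⟨t * θ + (s + t) * θ ^ 2, r + (s + t * (s + t) * (2 * a' + 1) + b' * (s + t) +
    q * (2 * b' + 1)) * θ + (-p + a' * (s + t) + q * (2 * a' + 1)) * θ ^ 2 +
      t * (s + t) * (2 * b' + 1), ?_⟩
  linear_combination (-4 * (2 * t * (s + t) + (s + t) ^ 2 * θ)) * hθ - 4 * θ ^ 2 * hp' +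
    4 * ((2 * a' + 1) * θ ^ 2 + (2 * b' + 1) * θ) * hq'

/-- Part SQ. -/
theorem sq_case [IsDomain R] {a' b' : ℤ} (ha : a = 2 * a' + 1) (hb : b = 2 * b' + 1)
    (hθ : θ ^ 3 + (a : R) * θ + (b : R) = 0) (gen : ∀ x : R, ∃ p, x = ev ι θ p) (r s t : ℤ_[2]) :
    ∃ g : R, g ^ 2 = 1 + 4 * (2 * ι r + ι s * θ + ι t * θ ^ 2) := by
  obtain ⟨w, u, h⟩ := sq4 ι θ ha hb hθ r s t
  obtain ⟨g, hg⟩ := newt ι θ hθ gen (g0 := 1 + 2 * w) (v := 1) (e := w) (u := u) one_ne_zero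
    (by ring)
  exact ⟨g, by rw [hg, h]⟩

/-- The same after multiplication by `(θ + θ ^ 2) ^ 2`. -/
theorem pt_aux [IsDomain R] {a' b' : ℤ} (ha : a = 2 * a' + 1) (hb : b = 2 * b' + 1)
    (hθ : θ ^ 3 + (a : R) * θ + (b : R) = 0) (gen : ∀ x : R, ∃ p, x = ev ι θ p)
    (hv : 1 + θ ≠ 0) (s t : ℤ_[2]) (τ u1 : R)
    (h : τ = (θ + θ ^ 2) ^ 2 * (1 + 4 * (ι s * θ + ι t * θ ^ 2)) + 8 * u1) :
    ∃ g : R, g ^ 2 = τ := by
  obtain ⟨w, u2, h2⟩ := sq4 ι θ ha hb hθ 0 s t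
  rw [map_zero, mul_zero, zero_add] at h2
  subst ha hb
  push_cast at hθ
  obtain ⟨g, hg⟩ := newt (a := 2 * a' + 1) (b := 2 * b' + 1) ι θ (by push_cast; exact hθ) gen
    (g0 := (θ + θ ^ 2) * (1 + 2 * w)) (v := 1 + θ)
    (e := (θ ^ 2 - a' * θ - (b' + 1)) + w + 2 * (θ ^ 2 - a' * θ - (b' + 1)) * w)
    (u := (θ + θ ^ 2) ^ 2 * u2 + u1) hv (by linear_combination (1 + 2 * w) * hθ)
  refine ⟨g, ?_⟩
  rw [hg, h, h2]
  ring

/-- Case `a = b = 1` modulo `4`. -/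
theorem pt_one [IsDomain R] (α β k₁ k₂ : ℤ) (ξ r s t : ℤ_[2]) (κ : R)
    (hθ : θ ^ 3 + ((1 + 4 * α : ℤ) : R) * θ + ((1 + 4 * β : ℤ) : R) = 0)
    (gen : ∀ x : R, ∃ p, x = ev ι θ p) (hv : 1 + θ ≠ 0) (hκ : (β : R) + ι ξ = 2 * κ) :
    ∃ g : R, g ^ 2 = (4 * ι ξ - θ) * (1 + 2 * (((2 * k₁ : ℤ) : R) * θ +
      ((2 * k₂ + 1 : ℤ) : R) * θ ^ 2) + 4 * (2 * ι r + ι s * θ + ι t * θ ^ 2)) := by
  obtain ⟨S, hS⟩ : ∃ S : ℤ_[2], S = s + k₁ := ⟨_, rfl⟩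
  obtain ⟨T, hT⟩ : ∃ T : ℤ_[2], T = t + k₂ := ⟨_, rfl⟩
  have hS' := congrArg ι hS
  have hT' := congrArg ι hT
  rw [map_add, map_intCast] at hS' hT'
  refine pt_aux ι θ (a := 1 + 4 * α) (b := 1 + 4 * β) (a' := 2 * α) (b' := 2 * β) (by ring) (by ring)
    hθ gen hv ((α : ℤ_[2]) - S) (1 + ξ - T) _ ?_ ?_
  · exact (fun (θ α β ξ s t r : R) => -8 * θ ^ 2 * α ^ 2 * ξ + 8 * θ ^ 2 * α ^ 2 * t - 4 * θ ^ 2 * α ^ 2 + 2 * θ ^ 2 * α * β - 2 * θ ^ 2 * α * ξ - 4 * θ ^ 2 * α * s + 2 * θ ^ 2 * α * t + 4 * θ ^ 2 * β * ξ - 2 * θ ^ 2 * β * s - 4 * θ ^ 2 * β * t + 4 * θ ^ 2 * β + 2 * θ ^ 2 * ξ * t + 2 * θ ^ 2 * ξ - 2 * θ ^ 2 * s - θ ^ 2 * t + θ ^ 2 - 8 * θ * α ^ 3 - 16 * θ * α ^ 2 * ξ + 8 * θ * α ^ 2 * s + 16 * θ * α ^ 2 * t - 18 * θ * α ^ 2 - 16 * θ * α * β * ξ + 16 * θ * α * β * t - 12 * θ * α * β - 12 * θ * α * ξ + 2 * θ * α * s + 14 * θ * α * t - 9 * θ *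 α - 2 * θ * β * ξ - 4 * θ * β * s + 2 * θ * β * t - 2 * θ * β + 2 * θ * ξ * s - 2 * θ * ξ - θ * s + 2 * θ * t - θ * r - θ - 8 * α ^ 2 * β - 2 * α ^ 2 - 16 * α * β * ξ + 8 * α * β * s + 16 * α * β * t - 16 * α * β - 4 * α * ξ + 2 * α * s + 4 * α * t - 4 * α - 8 * β ^ 2 * ξ + 8 * β ^ 2 * t - 8 * β ^ 2 - 8 * β * ξ + 10 * β * t - 6 * β + 4 * ξ * r - ξ + 2 * t - 1 + θ * κ) θ α β (ι ξ) (ι S) (ι T) (ι r)
  · push_cast at hθ ⊢
    simp only [map_sub, map_add, map_one, map_intCast]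
    rw [hS', hT']
    generalize ι ξ = ξ at *
    generalize ι r = r at *
    generalize ι s = s at *
    generalize ι t = t at *
    generalize (α : R) = α at *
    generalize (β : R) = β at *
    generalize (k₁ : R) = k₁ at *
    generalize (k₂ : R) = k₂ at *
    linear_combination ((fun (θ α β ξ s t r : R) => -4 * θ ^ 3 * ξ + 4 * θ ^ 3 * t - 4 * θ ^ 3 - 4 * θ ^ 2 * α - 8 * θ ^ 2 * ξ + 4 * θ ^ 2 * s + 8 * θ ^ 2 * t - 8 * θ ^ 2 + 16 * θ * α * ξ - 16 * θ * α * t + 8 * θ * α + 8 * θ * s - θ + 16 * α ^ 2 + 32 * α * ξ - 16 * α * s - 32 * α * t + 32 * α + 16 * β * ξ - 16 * β * t + 16 * β + 12 * ξ - 16 * t + 8) θ α β ξ (s + k₁) (t + k₂) r) * hθ + 4 * θ * hκ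

/-- Case `a = b = 3` modulo `4`. -/
theorem pt_three [IsDomain R] (α β k₁ k₂ : ℤ) (ξ r s t : ℤ_[2]) (κ : R)
    (hθ : θ ^ 3 + ((3 + 4 * α : ℤ) : R) * θ + ((3 + 4 * β : ℤ) : R) = 0)
    (gen : ∀ x : R, ∃ p, x = ev ι θ p) (hv : 1 + θ ≠ 0) (hκ : (β : R) + ι ξ = 2 * κ) :
    ∃ g : R, g ^ 2 = (2 + 4 * ι ξ - θ) * (1 + 2 * (((2 * k₁ + 1 : ℤ) : R) * θ +
      ((2 * k₂ : ℤ) : R) * θ ^ 2) + 4 * (1 + 2 * ι r + ι s * θ + ι t * θ ^ 2)) := by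
  obtain ⟨S, hS⟩ : ∃ S : ℤ_[2], S = s + k₁ := ⟨_, rfl⟩
  obtain ⟨T, hT⟩ : ∃ T : ℤ_[2], T = t + k₂ := ⟨_, rfl⟩
  have hS' := congrArg ι hS
  have hT' := congrArg ι hT
  rw [map_add, map_intCast] at hS' hT'
  refine pt_aux ι θ (a := 3 + 4 * α) (b := 3 + 4 * β) (a' := 2 * α + 1) (b' := 2 * β + 1) (by ring)
    (by ring) hθ gen hv ((α : ℤ_[2]) - S) (ξ - T) _ ?_ ?_
  · exact (fun (θ α β ξ s t r : R) => -8 * θ ^ 2 * α ^ 2 * ξ + 8 * θ ^ 2 * α ^ 2 * t + 4 * θ ^ 2 * α ^ 2 + 2 * θ ^ 2 * α * β - 10 * θ ^ 2 * α * ξ - 4 * θ ^ 2 * α * s + 10 * θ ^ 2 * α * t + 5 * θ ^ 2 * α + 4 * θ ^ 2 * β * ξ - 2 * θ ^ 2 * β * s - 4 * θ ^ 2 * β * t + 2 * θ ^ 2 * ξ * t - 5 * θ ^ 2 * s + θ ^ 2 * t - 8 * θ * α ^ 3 - 16 * θ * α ^ 2 * ξ + 8 * θ * α ^ 2 * s + 16 * θ * α ^ 2 * t - 10 * θ * α ^ 2 - 16 * θ * α * β * ξ + 16 * θ * α * β * t + 4 * θ * α * β - 36 * θ * α * ξ + 10 *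 θ * α * s + 38 * θ * α * t + θ * α - 10 * θ * β * ξ - 4 * θ * β * s + 10 * θ * β * t + 2 * θ * ξ * s - 16 * θ * ξ + θ * s + 18 * θ * t - θ * r + θ - 8 * α ^ 2 * β - 6 * α ^ 2 - 16 * α * β * ξ + 8 * α * β * s + 16 * α * β * t - 4 * α * β - 12 * α * ξ + 6 * α * s + 12 * α * t - 3 * α - 8 * β ^ 2 * ξ + 8 * β ^ 2 * t - 24 * β * ξ + 4 * β * s + 26 * β * t + β + 4 * ξ * r - 11 * ξ + 3 * s + 15 * t + 2 * r + 2 + θ * κ) θ α β (ι ξ) (ι S) (ι T) (ι r)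
  · push_cast at hθ ⊢
    simp only [map_sub, map_add, map_one, map_intCast]
    rw [hS', hT']
    generalize ι ξ = ξ at *
    generalize ι r = r at *
    generalize ι s = s at *
    generalize ι t = t at *
    generalize (α : R) = α at *
    generalize (β : R) = β at *
    generalize (k₁ : R) = k₁ at *
    generalize (k₂ : R) = k₂ at *
    linear_combination ((fun (θ α β ξ s t r : R) => -4 * θ ^ 3 * ξ + 4 * θ ^ 3 * t - 4 * θ ^ 2 * α - 8 * θ ^ 2 * ξ + 4 * θ ^ 2 * s + 8 * θ ^ 2 * t + 16 * θ * α * ξ - 16 * θ * α * t - 8 * θ * α + 8 * θ * ξ + 8 * θ * s - 8 * θ * t - θ + 16 * α ^ 2 + 32 * α * ξ - 16 * α * s - 32 * α * t + 8 * α + 16 * β * ξ - 16 * β * t + 36 * ξ - 8 * s - 40 * t - 2) θ α β ξ (s + k₁) (t + k₂) r) * hθ + 4 * θ * hκ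

end ring

/-- Existence of the abscissa. -/
theorem root_ex (c₂ c₁ c₀ : ℤ) : ∃ ξ : ℤ_[2], 16 * ξ ^ 3 + 8 * c₂ * ξ ^ 2 + (2 * c₁ + 1) * ξ + c₀ = 0 := by
  obtain ⟨F, hF⟩ : ∃ F : ℤ_[2][X], F = C (16 : ℤ_[2]) * X ^ 3 + C (8 * c₂ : ℤ_[2]) * X ^ 2 +
    C (2 * c₁ + 1 : ℤ_[2]) * X + C (c₀ : ℤ_[2]) := ⟨_, rfl⟩
  have hF0 : aeval (c₀ : ℤ_[2]) F = ((2 * (8 * c₀ ^ 3 + 4 * c₂ * c₀ ^ 2 + (c₁ + 1) * c₀) : ℤ) : ℤ_[2]) := by
    rw [hF]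
    simp
    ring
  have hF1 : aeval (c₀ : ℤ_[2]) (derivative F) =
      ((2 * (24 * c₀ ^ 2 + 8 * c₂ * c₀ + c₁) + 1 : ℤ) : ℤ_[2]) := by
    rw [hF]
    simp
    ring
  have hn1 : ‖((2 * (24 * c₀ ^ 2 + 8 * c₂ * c₀ + c₁) + 1 : ℤ) : ℤ_[2])‖ = 1 := by
    refine le_antisymm (PadicInt.norm_le_one _) (not_lt.1 fun h => ?_)
    rw [PadicInt.norm_int_lt_one_iff_dvd] at h
    omega
  have hn0 : ‖((2 * (8 * c₀ ^ 3 + 4 * c₂ * c₀ ^ 2 + (c₁ + 1) * c₀) : ℤ) : ℤ_[2])‖ < 1 :=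
    (PadicInt.norm_int_lt_one_iff_dvd _).2 (Dvd.intro _ rfl)
  obtain ⟨z, hz, -⟩ := hensels_lemma (p := 2) (F := F) (a := (c₀ : ℤ_[2])) (by
    rw [hF0, hF1, hn1, one_pow]
    exact hn0)
  refine ⟨z, ?_⟩
  rw [hF] at hz
  simpa using hz

end Pool.Agent.N951.PV
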