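import Pool.Agent.N922.PQ.Stm2
import Pool.Agent.N803.PQ.Loc2
import Pool.Agent.N951.PV.Newt

/-!
Project PV (helper922), part PT2 (helper951): the class of a point over `ℚ_2`, and the descent of the
local condition at `2`.
-/

set_option autoImplicit false
set_option linter.all false

open Polynomial
open scoped Classical

namespace Pool.Agent.N951.PV

open Pool.Agent.N922.PQ Pool.Agent.N803.PQ

theorem notwo {a b : ℤ} (ha : Odd a) (hb : Odd b) (z : ℤ) : ¬ (2 : ℤ) ∣ z ^ 3 + a * z + b := by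
  intro h
  rw [← even_iff_two_dvd] at h
  obtain ⟨k, hk⟩ := ha
  obtain ⟨l, hl⟩ := hb
  rcases Int.even_or_odd z with h1 | h1
  · have h2 : Odd (z ^ 3 + a * z + b) := by
      have : Even (z ^ 3 + a * z) := (h1.pow_of_ne_zero (by norm_num)).add (h1.mul_left a)
      exact this.add_odd ⟨l, hl⟩
    exact (Int.not_even_iff_odd.2 h2) h
  · have h2 : Odd (z ^ 3 + a * z + b) := by
      have : Even (z ^ 3 + a * z) := (h1.pow).add_odd (Odd.mul ⟨k, hk⟩ h1)
      exact this.add_odd ⟨l, hl⟩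
    exact (Int.not_even_iff_odd.2 h2) h

section K

variable (a b : ℤ)

/-- The homomorphism to the cubic algebra. -/
noncomputable def jj : ℤ_[2] →+* AdjoinRoot (fp a b) :=
  (AdjoinRoot.of (fp a b)).comp PadicInt.Coe.ringHom

theorem jj_apply (x : ℤ_[2]) : jj a b x = AdjoinRoot.of (fp a b) (x : ℚ_[2]) := rfl

theorem root3 : AdjoinRoot.root (fp a b) ^ 3 + (a : AdjoinRoot (fp a b)) *
    AdjoinRoot.root (fp a b) + (b : AdjoinRoot (fp a b)) = 0 := by
  have := root_eq (a := a) (b := b)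
  rwa [map_intCast, map_intCast] at this

/-- The order `ℤ_2[θ]`. -/
noncomputable def SR : Subring (AdjoinRoot (fp a b)) where
  carrier := {x | ∃ p, x = ev (jj a b) (AdjoinRoot.root (fp a b)) p}
  mul_mem' := by
    rintro _ _ ⟨p, rfl⟩ ⟨q, rfl⟩
    exact ⟨mu a b p q, (ev_mu _ _ (root3 a b) p q).symm⟩
  one_mem' := ⟨![1, 0, 0], by simp [ev]⟩
  add_mem' := by
    rintro _ _ ⟨p, rfl⟩ ⟨q, rfl⟩
    exact ⟨p + q, (ev_add _ _ p q).symm⟩
  zero_mem' := ⟨0, by simp [ev]⟩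
  neg_mem' := by
    rintro _ ⟨p, rfl⟩
    exact ⟨-p, by simp only [ev, Pi.neg_apply, map_neg]; ring⟩

theorem jj_mem (x : ℤ_[2]) : jj a b x ∈ SR a b := ⟨![x, 0, 0], by simp [ev]⟩

theorem root_mem : AdjoinRoot.root (fp a b) ∈ SR a b := ⟨![0, 1, 0], by simp [ev]⟩

/-- The homomorphism to the order. -/
noncomputable def io : ℤ_[2] →+* SR a b := (jj a b).codRestrict (SR a b) (jj_mem a b)

/-- The zero of the polynomial. -/
noncomputable def th : SR a b := ⟨AdjoinRoot.root (fp a b), root_mem a b⟩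

theorem th3 : th a b ^ 3 + ((a : ℤ) : SR a b) * th a b + ((b : ℤ) : SR a b) = 0 := by
  apply Subtype.ext
  have := root3 a b
  push_cast
  exact this

theorem th_gen (x : SR a b) : ∃ p, x = ev (io a b) (th a b) p := by
  obtain ⟨x, p, hp⟩ := x
  refine ⟨p, Subtype.ext ?_⟩
  rw [show ((⟨x, p, hp⟩ : SR a b) : AdjoinRoot (fp a b)) = x from rfl, hp]
  rfl

theorem th_ne (h : ∀ z : ℤ, ¬ (2 : ℤ) ∣ z ^ 3 + a * z + b) : 1 + th a b ≠ 0 := by
  haveI : Fact (Irreducible (fp a b)) := ⟨fp_irr h⟩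
  intro h0
  have h1 := congrArg (fun z : SR a b => (z : AdjoinRoot (fp a b))) h0
  have h2 : (1 : AdjoinRoot (fp a b)) + AdjoinRoot.root (fp a b) = 0 := h1
  have h3 : AdjoinRoot.root (fp a b) = AdjoinRoot.of (fp a b) (-1) := by
    rw [map_neg, map_one]
    linear_combination h2
  have h4 := root_eq (a := a) (b := b)
  rw [h3, ← map_pow, ← map_mul, ← map_add, ← map_add] at h4
  exact noroot h (-1) ((map_eq_zero (AdjoinRoot.of (fp a b))).1 h4)

end K

theorem mk_pol (a b g₁ g₂ : ℤ) (r s t : ℚ_[2]) : AdjoinRoot.mk (fp a b) (pol ℚ_[2] g₁ g₂ r s t) =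
    1 + 2 * ((g₁ : AdjoinRoot (fp a b)) * AdjoinRoot.root (fp a b) +
      (g₂ : AdjoinRoot (fp a b)) * AdjoinRoot.root (fp a b) ^ 2) +
    4 * (AdjoinRoot.of (fp a b) r + AdjoinRoot.of (fp a b) s * AdjoinRoot.root (fp a b) +
      AdjoinRoot.of (fp a b) t * AdjoinRoot.root (fp a b) ^ 2) := by
  unfold pol
  simp only [map_add, map_mul, map_one, map_pow, AdjoinRoot.mk_C, AdjoinRoot.mk_X, map_ofNat,
    map_intCast]

/-- Part PT2. -/
theorem pt2 : S_PT2 := by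
  intro a b ha hab g₁ g₂ r s t hr hs ht hg
  have hb : Odd b := by
    obtain ⟨k, hk⟩ := ha
    obtain ⟨l, hl⟩ := hab
    exact ⟨k - 2 * l, by omega⟩
  have h2 := notwo ha hb
  haveI : Fact (Irreducible (fp a b)) := ⟨fp_irr h2⟩
  obtain ⟨s', hs'⟩ : ∃ s' : ℤ_[2], s = s' := ⟨⟨s, hs⟩, rfl⟩
  obtain ⟨t', ht'⟩ : ∃ t' : ℤ_[2], t = t' := ⟨⟨t, ht⟩, rfl⟩
  obtain ⟨r', hr'⟩ : ∃ r' : ℤ_[2], r = ((g₁ * (1 + g₂) : ℤ) : ℚ_[2]) + 2 * r' := by
    obtain ⟨z, hz⟩ : ∃ z : ℤ_[2], r - ((g₁ * (1 + g₂) : ℤ) : ℚ_[2]) = z := ⟨⟨_, hr.le⟩, rfl⟩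
    have h3 : ‖z‖ < 1 := by
      have := hr
      rw [hz] at this
      exact this
    rw [PadicInt.norm_lt_one_iff_dvd] at h3
    obtain ⟨y, hy⟩ := h3
    refine ⟨y, ?_⟩
    have h4 := congrArg (fun z : ℤ_[2] => (z : ℚ_[2])) hy
    simp only [PadicInt.coe_mul, PadicInt.coe_natCast] at h4
    rw [h4] at hz
    push_cast at hz ⊢
    linear_combination hz
  subst hs' ht' hr'
  have hev : ∀ x : ℤ_[2], (SR a b).subtype (io a b x) = AdjoinRoot.of (fp a b) (x : ℚ_[2]) :=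
    fun x => rfl
  have hth : (SR a b).subtype (th a b) = AdjoinRoot.root (fp a b) := rfl
  have h1ne := th_ne a b h2
  have hgen := th_gen a b
  have hθ := th3 a b
  rw [pl2_iff]
  unfold PP
  rw [mk_pol]
  obtain ⟨a', ha'⟩ := ha
  obtain ⟨b', hb'⟩ := hb
  rcases hg with ⟨⟨k₁, hk₁⟩, ⟨k₂, hk₂⟩⟩ | ⟨hg1, hg2⟩
  · left
    obtain ⟨g, hg⟩ := sq_case (io a b) (th a b) ha' hb' hθ hgen
      (r' + (k₁ * (1 + 2 * k₂) : ℤ)) (s' + (k₁ : ℤ)) (t' + (k₂ : ℤ))
    refine ⟨(SR a b).subtype g, ?_⟩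
    have h5 := congrArg (SR a b).subtype hg
    simp only [map_add, map_mul, map_pow, map_one, map_intCast, map_ofNat, hev, hth] at h5
    rw [h5]
    simp only [map_add, map_mul, map_intCast, map_ofNat]
    subst hk₁ hk₂
    push_cast
    ring
  · right
    obtain ⟨l, hl⟩ := hab
    have ha4 : a % 4 = 1 ∨ a % 4 = 3 := by omega
    rcases ha4 with h4 | h4
    · obtain ⟨α, rfl⟩ : ∃ α, a = 1 + 4 * α := ⟨(a - 1) / 4, by omega⟩
      obtain ⟨β, rfl⟩ : ∃ β, b = 1 + 4 * β := ⟨(b - 1) / 4, by omega⟩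
      obtain ⟨k₁, rfl⟩ : ∃ k, g₁ = 2 * k := ⟨g₁ / 2, by omega⟩
      obtain ⟨k₂, rfl⟩ : ∃ k, g₂ = 2 * k + 1 := ⟨(g₂ - 1) / 2, by omega⟩
      obtain ⟨ξ, hξ⟩ := root_ex 0 (2 * α) β
      have hξ' := congrArg (PadicInt.Coe.ringHom (p := 2)) hξ
      have hco : PadicInt.Coe.ringHom (p := 2) ξ = (ξ : ℚ_[2]) := rfl
      simp only [map_add, map_mul, map_pow, map_ofNat, map_intCast, map_one, map_zero, hco] at hξ'
      have hξ2 := congrArg (io (1 + 4 * α) (1 + 4 * β)) hξ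
      simp only [map_add, map_mul, map_pow, map_ofNat, map_intCast, map_one, map_zero] at hξ2
      refine ⟨4 * ξ, 1, one_ne_zero, ?_, ?_⟩
      · push_cast at hξ' ⊢
        linear_combination (-4) * hξ'
      · obtain ⟨g, hg⟩ := pt_one (io (1 + 4 * α) (1 + 4 * β)) (th (1 + 4 * α) (1 + 4 * β)) α β k₁ k₂ ξ
          (r' + (k₁ * (2 * k₂ + 2) : ℤ)) s' t'
          (-8 * (io (1 + 4 * α) (1 + 4 * β) ξ) ^ 3 - 2 * α * io (1 + 4 * α) (1 + 4 * β) ξ) hθ hgen h1ne (by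
            push_cast at hξ2
            linear_combination hξ2)
        refine ⟨(SR (1 + 4 * α) (1 + 4 * β)).subtype g, ?_⟩
        have h5 := congrArg (SR (1 + 4 * α) (1 + 4 * β)).subtype hg
        simp only [map_add, map_sub, map_mul, map_pow, map_one, map_intCast, map_ofNat, hev, hth] at h5
        rw [h5]
        simp only [map_add, map_mul, map_intCast, map_ofNat]
        push_cast
        ring
    · obtain ⟨α, rfl⟩ : ∃ α, a = 3 + 4 * α := ⟨(a - 3) / 4, by omega⟩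
      obtain ⟨β, rfl⟩ : ∃ β, b = 3 + 4 * β := ⟨(b - 3) / 4, by omega⟩
      obtain ⟨k₁, rfl⟩ : ∃ k, g₁ = 2 * k + 1 := ⟨(g₁ - 1) / 2, by omega⟩
      obtain ⟨k₂, rfl⟩ : ∃ k, g₂ = 2 * k := ⟨g₂ / 2, by omega⟩
      obtain ⟨ξ, hξ⟩ := root_ex 3 (7 + 2 * α) (4 + 2 * α + β)
      have hξ' := congrArg (PadicInt.Coe.ringHom (p := 2)) hξ
      have hco : PadicInt.Coe.ringHom (p := 2) ξ = (ξ : ℚ_[2]) := rfl
      simp only [map_add, map_mul, map_pow, map_ofNat, map_intCast, map_one, map_zero, hco] at hξ'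
      have hξ2 := congrArg (io (3 + 4 * α) (3 + 4 * β)) hξ
      simp only [map_add, map_mul, map_pow, map_ofNat, map_intCast, map_one, map_zero] at hξ2
      refine ⟨2 + 4 * ξ, 1, one_ne_zero, ?_, ?_⟩
      · push_cast at hξ' ⊢
        linear_combination (-4) * hξ'
      · obtain ⟨g, hg⟩ := pt_three (io (3 + 4 * α) (3 + 4 * β)) (th (3 + 4 * α) (3 + 4 * β)) α β k₁ k₂ ξ
          (r' + (k₁ + k₂ + 2 * k₁ * k₂ : ℤ)) s' t'
          (-(2 + 7 * (io (3 + 4 * α) (3 + 4 * β) ξ) + 12 * (io (3 + 4 * α) (3 + 4 * β) ξ) ^ 2 +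
            8 * (io (3 + 4 * α) (3 + 4 * β) ξ) ^ 3 + α + 2 * α * io (3 + 4 * α) (3 + 4 * β) ξ))
            hθ hgen h1ne (by
            push_cast at hξ2
            linear_combination hξ2)
        refine ⟨(SR (3 + 4 * α) (3 + 4 * β)).subtype g, ?_⟩
        have h5 := congrArg (SR (3 + 4 * α) (3 + 4 * β)).subtype hg
        simp only [map_add, map_sub, map_mul, map_pow, map_one, map_intCast, map_ofNat, hev, hth] at h5
        rw [h5]
        simp only [map_add, map_mul, map_intCast, map_ofNat]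
        push_cast
        ring

/-! ### Descent -/

theorem pl_congr {F : Type} [Field F] {a b : ℤ} {h h' : F[X]} (hd : ff F a b ∣ h - h')
    (H : PL F a b h) : PL F a b h' := by
  rcases H with ⟨g, hg⟩ | ⟨x, y, hy, hxy, g, hg⟩
  · left
    refine ⟨g, ?_⟩
    have e : h' - g ^ 2 = (h - g ^ 2) - (h - h') := by ring
    rw [e]
    exact dvd_sub hg hd
  · right
    refine ⟨x, y, hy, hxy, g, ?_⟩
    have e : (C x - X) * h' - g ^ 2 = ((C x - X) * h - g ^ 2) - (C x - X) * (h - h') := by ring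
    rw [e]
    exact dvd_sub hg (dvd_mul_of_dvd_right hd _)

theorem pl_sq {F : Type} [Field F] {a b : ℤ} {h : F[X]} (k : F[X]) (H : PL F a b h) :
    PL F a b (k ^ 2 * h) := by
  rcases H with ⟨g, hg⟩ | ⟨x, y, hy, hxy, g, hg⟩
  · left
    refine ⟨k * g, ?_⟩
    have e : k ^ 2 * h - (k * g) ^ 2 = k ^ 2 * (h - g ^ 2) := by ring
    rw [e]
    exact dvd_mul_of_dvd_right hg _
  · right
    refine ⟨x, y, hy, hxy, k * g, ?_⟩
    have e : (C x - X) * (k ^ 2 * h) - (k * g) ^ 2 = k ^ 2 * ((C x - X) * h - g ^ 2) := by ring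
    rw [e]
    exact dvd_mul_of_dvd_right hg _

theorem pl_iff (a b : ℤ) (h : ℚ_[2][X]) : PL2 a b h ↔ PL ℚ_[2] a b h := Iff.rfl

theorem cast_congr {L : Type} [Field L] [CharZero L] {a b : ℤ} {θ : L} (hc : IsCub a b θ)
    (F : Type) [Field F] [CharZero F] {h h' : ℚ[X]} (e : aeval θ h = aeval θ h') :
    ff F a b ∣ h.map (algebraMap ℚ F) - h'.map (algebraMap ℚ F) := by
  have h3 : ff ℚ a b ∣ h - h' := by
    rw [← hc.minpoly_eq]
    apply minpoly.dvd
    rw [map_sub, e, sub_self]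
  have h4 := Polynomial.map_dvd (algebraMap ℚ F) h3
  rwa [ff_map, Polynomial.map_sub] at h4

theorem pol_map (F : Type) [Field F] [CharZero F] (g₁ g₂ : ℤ) (r s t : ℚ) :
    (pol ℚ g₁ g₂ r s t).map (algebraMap ℚ F) = pol F g₁ g₂ (r : F) (s : F) (t : F) := by
  unfold pol
  simp

section val

variable {F Γ : Type} [Field F] [CharZero F] [LinearOrderedCommGroupWithZero Γ]
  (v : Valuation F Γ)

theorem v_nat (n : ℕ) : v (n : F) ≤ 1 := by
  induction n with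
  | zero => simp
  | succ n ih =>
    push_cast
    exact (v.map_add _ _).trans (max_le ih (by rw [map_one]))

theorem v_int (n : ℤ) : v (n : F) ≤ 1 := by
  rcases Int.eq_nat_or_neg n with ⟨m, rfl | rfl⟩
  · simpa using v_nat v m
  · simpa using v_nat v m

theorem v_odd (h2 : v 2 < 1) (n : ℕ) (hn : Odd n) : v (n : F) = 1 := by
  refine le_antisymm (v_nat v n) (not_lt.1 fun h => ?_)
  obtain ⟨k, rfl⟩ := hn
  have h1 : v (1 : F) < 1 := by
    have e : (1 : F) = ((2 * k + 1 : ℕ) : F) - 2 * k := by push_cast; ring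
    rw [e]
    refine (v.map_sub _ _).trans_lt (max_lt h ?_)
    rw [map_mul]
    calc v 2 * v (k : F) ≤ v 2 * 1 := mul_le_mul_right (v_nat v k) _
      _ < 1 := by rw [mul_one]; exact h2
  rw [map_one] at h1
  exact lt_irrefl _ h1

theorem v_rat (h2 : v 2 < 1) (q : ℚ) (hq : Odd q.den) : v (q : F) ≤ 1 := by
  have e : (q : F) * (q.den : F) = (q.num : F) := by
    have h0 : (q.den : F) ≠ 0 := by exact_mod_cast q.den_nz
    rw [Rat.cast_def, div_mul_cancel₀ _ h0]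
  have h := congrArg v e
  rw [map_mul, v_odd v h2 _ hq, mul_one] at h
  rw [h]
  exact v_int v _

end val

/-- Part UD. -/
theorem ud (h1 : S_CAL) (h2 : S_NF2) : S_UD := by
  intro L _ _ a b θ hc ha hab x hx hN F Γ _ _ _ v hv hv2 hPL
  have hb : Odd b := by
    obtain ⟨k, hk⟩ := ha
    obtain ⟨l, hl⟩ := hab
    exact ⟨k - 2 * l, by omega⟩
  obtain ⟨c, g₁, g₂, r, s, t, hc0, hr, hs, ht, hα⟩ := h2 L a b θ hc ha hb x hx hN
  obtain ⟨k, hk⟩ := hc.exists_poly c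
  obtain ⟨k', hk'⟩ := hc.exists_poly c⁻¹
  set P : ℚ[X] := pol ℚ g₁ g₂ ((g₁ * (1 + g₂) : ℤ) + 2 * r) s t with hP
  -- the local condition over `F` for `P`
  have e1 : aeval θ (k ^ 2 * P) = x := by
    rw [map_mul, map_pow, hk, hα]
  have e2 : aeval θ (k' ^ 2 * (k ^ 2 * P)) = aeval θ P := by
    rw [map_mul, map_pow, hk', e1, hα, ← mul_assoc, ← mul_pow, inv_mul_cancel₀ hc0, one_pow, one_mul]
  have h3 := pl_sq (k'.map (algebraMap ℚ F)) (hPL _ e1)
  rw [← Polynomial.map_pow, ← Polynomial.map_mul] at h3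
  have h4 := pl_congr (cast_congr hc F e2) h3
  rw [hP, pol_map] at h4
  have hr2 : v ((((g₁ * (1 + g₂) : ℤ) : ℚ) + 2 * r : ℚ) : F) ≤ 1 := by
    push_cast
    refine (v.map_add _ _).trans (max_le ?_ ?_)
    · have := v_int v (g₁ * (1 + g₂))
      push_cast at this
      exact this
    · rw [map_mul]
      exact mul_le_one' hv.le (v_rat v hv r hr)
  have h5 := h1 F Γ v hv hv2 a b ha hab g₁ g₂ _ _ _ hr2 (v_rat v hv s hs) (v_rat v hv t ht) h4
  -- over `ℚ_2`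
  have hnd : ∀ q : ℚ, Odd q.den → ‖(q : ℚ_[2])‖ ≤ 1 := by
    intro q hq
    apply Padic.norm_rat_le_one
    intro h
    exact (Nat.not_even_iff_odd.2 hq) (even_iff_two_dvd.2 h)
  have h6 := pt2 a b ha hab g₁ g₂ ((((g₁ * (1 + g₂) : ℤ) : ℚ) + 2 * r : ℚ) : ℚ_[2]) s t (by
    have e : ((((g₁ * (1 + g₂) : ℤ) : ℚ) + 2 * r : ℚ) : ℚ_[2]) - ((g₁ * (1 + g₂) : ℤ) : ℚ_[2]) =
        2 * (r : ℚ_[2]) := by
      push_cast
      ring
    rw [e, norm_mul]
    have e3 : ‖(2 : ℚ_[2])‖ = 1 / 2 := by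
      have := Padic.norm_p (p := 2)
      rw [Nat.cast_ofNat] at this
      rw [this]
      norm_num
    rw [e3]
    have := hnd r hr
    linarith) (hnd s hs) (hnd t ht) h5
  rw [← pol_map, ← hP] at h6
  intro h' hh'
  have h7 : PL ℚ_[2] a b ((k.map (algebraMap ℚ ℚ_[2])) ^ 2 * P.map (algebraMap ℚ ℚ_[2])) :=
    pl_sq _ h6
  rw [← Polynomial.map_pow, ← Polynomial.map_mul] at h7
  exact pl_congr (cast_congr hc ℚ_[2] (e1.trans hh'.symm)) h7

end Pool.Agent.N951.PV
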